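import Pool.Agent.H24.UD.Defs

/-!
# Block E, module Abel: a group generated by elements that commute modulo `N` is commutative modulo `N`

Pure group theory. Fix `s ∈ S`. By `Subgroup.closure_induction` every `g ∈ closure S` satisfies `g s g⁻¹ s⁻¹ ∈ N`:
`(g h) s (g h)⁻¹ s⁻¹ = g (h s h⁻¹ s⁻¹) g⁻¹ · (g s g⁻¹ s⁻¹)`, `g⁻¹ s g s⁻¹ = g⁻¹ (g s g⁻¹ s⁻¹)⁻¹ g`. Then fix `g` and use induction on `h`:
`g (h k) g⁻¹ (h k)⁻¹ = (g h g⁻¹ h⁻¹) · h (g k g⁻¹ k⁻¹) h⁻¹`, `g h⁻¹ g⁻¹ h = h⁻¹ (g h g⁻¹ h⁻¹)⁻¹ h`. Finally `Subgroup.commutator_le`.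
-/

set_option autoImplicit false

namespace Pool.Agent.H24.UD

open Module QuadraticMap Pool.Agent.H49.UDN

theorem comm_le {A : Type*} [Group A] {G N : Subgroup A} (hNn : NormIn G N) {S : Set A}
    (hG : G = Subgroup.closure S) (hS : ∀ s ∈ S, ∀ t ∈ S, s * t * s⁻¹ * t⁻¹ ∈ N) : ⁅G, G⁆ ≤ N := by
  have h1 : ∀ s ∈ S, ∀ g ∈ Subgroup.closure S, g * s * g⁻¹ * s⁻¹ ∈ N := by
    intro s hs g hg
    induction hg using Subgroup.closure_induction with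
    | mem t ht => exact hS t ht s hs
    | one => simp [N.one_mem]
    | mul a b ha hb iha ihb =>
      have h2 : a * (b * s * b⁻¹ * s⁻¹) * a⁻¹ ∈ N := hNn a (hG ▸ ha) _ ihb
      have h3 := N.mul_mem h2 iha
      have h4 : a * (b * s * b⁻¹ * s⁻¹) * a⁻¹ * (a * s * a⁻¹ * s⁻¹) = a * b * s * (a * b)⁻¹ * s⁻¹ := by
        group
      rwa [h4] at h3
    | inv a ha iha =>
      have h2 := hNn a⁻¹ (hG ▸ (Subgroup.closure S).inv_mem ha) _ (N.inv_mem iha)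
      have h4 : a⁻¹ * (a * s * a⁻¹ * s⁻¹)⁻¹ * a⁻¹⁻¹ = a⁻¹ * s * a⁻¹⁻¹ * s⁻¹ := by
        group
      rwa [h4] at h2
  have h5 : ∀ g ∈ Subgroup.closure S, ∀ h ∈ Subgroup.closure S, g * h * g⁻¹ * h⁻¹ ∈ N := by
    intro g hg h hh
    induction hh using Subgroup.closure_induction with
    | mem t ht => exact h1 t ht g hg
    | one => simp [N.one_mem]
    | mul a b ha hb iha ihb =>
      have h2 : a * (g * b * g⁻¹ * b⁻¹) * a⁻¹ ∈ N := hNn a (hG ▸ ha) _ ihb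
      have h3 := N.mul_mem iha h2
      have h4 : g * a * g⁻¹ * a⁻¹ * (a * (g * b * g⁻¹ * b⁻¹) * a⁻¹) = g * (a * b) * g⁻¹ * (a * b)⁻¹ := by
        group
      rwa [h4] at h3
    | inv a ha iha =>
      have h2 := hNn a⁻¹ (hG ▸ (Subgroup.closure S).inv_mem ha) _ (N.inv_mem iha)
      have h4 : a⁻¹ * (g * a * g⁻¹ * a⁻¹)⁻¹ * a⁻¹⁻¹ = g * a⁻¹ * g⁻¹ * a⁻¹⁻¹ := by
        group
      rwa [h4] at h2
  rw [Subgroup.commutator_le]
  intro g hg h hh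
  rw [hG] at hg hh
  rw [commutatorElement_def]
  exact h5 g hg h hh

end Pool.Agent.H24.UD
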