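import Pool.Agent.H24.UD.Defs

/-!
# Block E, module Core: the normal core

`K = H.subgroupOf G` has index `≤ C` in `↥G` (`Subgroup.index_mul_card`, `card K = card H`), its normal core is the
kernel of the action on `G ⧸ K` (`Subgroup.normalCore_eq_ker`), so its index is the order of a group of permutations of
`G ⧸ K`, at most `(K.index)! ≤ C!` (`Nat.card_perm`, `Nat.factorial_le`). `N` is the image of the core in `A`
(`Subgroup.map G.subtype`).
-/

set_option autoImplicit false

namespace Pool.Agent.H24.UD

open Module QuadraticMap Pool.Agent.H49.UDN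

variable {A : Type*} [Group A] [Finite A] {G H : Subgroup A}

theorem exists_core (hHG : H ≤ G) {C : ℕ} (h : Nat.card G ≤ C * Nat.card H) :
    ∃ N : Subgroup A, N ≤ H ∧ NormIn G N ∧ Nat.card G ≤ C.factorial * Nat.card N := by
  set K : Subgroup G := H.subgroupOf G with hK
  have hcK : Nat.card K = Nat.card H := Nat.card_congr (Subgroup.subgroupOfEquivOfLe hHG).toEquiv
  have hidx : K.index ≤ C := by
    have h1 := K.index_mul_card
    rw [hcK] at h1
    rw [← h1] at h
    exact Nat.le_of_mul_le_mul_right h Nat.card_pos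
  have hcore : K.normalCore.index ≤ C.factorial := by
    rw [Subgroup.normalCore_eq_ker, Subgroup.index_ker]
    calc Nat.card (MulAction.toPermHom G (G ⧸ K)).range
        ≤ Nat.card (Equiv.Perm (G ⧸ K)) := Subgroup.card_le_card_group _
      _ = (Nat.card (G ⧸ K)).factorial := Nat.card_perm
      _ ≤ C.factorial := Nat.factorial_le hidx
  refine ⟨K.normalCore.map G.subtype, ?_, ?_, ?_⟩
  · rintro x ⟨y, hy, rfl⟩
    exact Subgroup.mem_subgroupOf.1 (Subgroup.normalCore_le K hy)
  · rintro g hg n ⟨m, hm, rfl⟩
    refine ⟨⟨g, hg⟩ * m * ⟨g, hg⟩⁻¹, ?_, rfl⟩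
    exact (Subgroup.normalCore_normal K).conj_mem m hm ⟨g, hg⟩
  · have h1 := K.normalCore.index_mul_card
    have h2 : Nat.card (K.normalCore.map G.subtype) = Nat.card K.normalCore :=
      (Nat.card_congr (K.normalCore.equivMapOfInjective G.subtype G.subtype_injective).toEquiv).symm
    rw [h2, ← h1]
    exact Nat.mul_le_mul_right _ hcore

end Pool.Agent.H24.UD
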