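import Pool.Agent.H32.UD.Bas
import Pool.Agent.H49.UDN.Basic

/-!
# Block E (bounded index): definitions

Symplectic part: `B` an alternating form on `V`, `Iso B` its isometry group, `tv hB v a` the transvection
`x ↦ x + a B(x, v) v`. Orthogonal part: `Q` a quadratic form, `orth Q`, `eich Q u v` (`H49/UDN/Basic.lean`),
`rf Q x` the reflection, `hyp Q u u' c` the map `diag (c, c⁻¹)` on the hyperbolic plane `⟨u, u'⟩`.
`NormIn G N`: the subgroup `N` is normalised by `G`.
-/

set_option autoImplicit false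

namespace Pool.Agent.H24.UD

open Module QuadraticMap Pool.Agent.H49.UDN

section Group

variable {A : Type*} [Group A]

/-- `N` is normalised by `G` -/
def NormIn (G N : Subgroup A) : Prop := ∀ g ∈ G, ∀ n ∈ N, g * n * g⁻¹ ∈ N

end Group

section Alt

variable {F V : Type*} [Field F] [AddCommGroup V] [Module F V]

/-- the isometry group of a bilinear form -/
def Iso (B : LinearMap.BilinForm F V) : Subgroup (V ≃ₗ[F] V) where
  carrier := {g | ∀ x y, B (g x) (g y) = B x y}
  mul_mem' := by
    intro a b ha hb x y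
    rw [LinearEquiv.mul_apply, LinearEquiv.mul_apply, ha, hb]
  one_mem' := by
    intro x y
    rfl
  inv_mem' := by
    intro a ha x y
    have h := ha (a⁻¹ x) (a⁻¹ y)
    rw [← h, ← LinearEquiv.mul_apply, ← LinearEquiv.mul_apply, mul_inv_cancel]
    rfl

variable {B : LinearMap.BilinForm F V}

lemma mem_Iso {g : V ≃ₗ[F] V} : g ∈ Iso B ↔ ∀ x y, B (g x) (g y) = B x y := Iff.rfl

/-- the transvection as a linear map -/
def tvLin (B : LinearMap.BilinForm F V) (v : V) (a : F) : V →ₗ[F] V :=
  LinearMap.id + (a • (LinearMap.flip B v)).smulRight v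

lemma tvLin_apply (B : LinearMap.BilinForm F V) (v : V) (a : F) (x : V) :
    tvLin B v a x = x + (a * B x v) • v := by
  simp [tvLin]

lemma alt_swap (hB : ∀ x, B x x = 0) (x y : V) : B y x = -B x y := by
  have h := hB (x + y)
  simp only [map_add, LinearMap.add_apply, hB, zero_add, add_zero] at h
  linear_combination h

lemma tvLin_comp (hB : ∀ x, B x x = 0) (v : V) (a b : F) (x : V) :
    tvLin B v a (tvLin B v b x) = tvLin B v (a + b) x := by
  simp only [tvLin_apply, map_add, map_smul, hB, mul_zero]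
  module

lemma tvLin_zero (v x : V) : tvLin B v 0 x = x := by
  rw [tvLin_apply, zero_mul, zero_smul, add_zero]

/-- the transvection `x ↦ x + a B(x, v) v` -/
def tv (hB : ∀ x, B x x = 0) (v : V) (a : F) : V ≃ₗ[F] V :=
  LinearEquiv.ofLinearMap (tvLin B v a) (tvLin B v (-a))
    (by
      ext x
      rw [LinearMap.comp_apply, tvLin_comp hB, add_neg_cancel, tvLin_zero]
      rfl)
    (by
      ext x
      rw [LinearMap.comp_apply, tvLin_comp hB, neg_add_cancel, tvLin_zero]
      rfl)

lemma tv_apply (hB : ∀ x, B x x = 0) (v : V) (a : F) (x : V) : tv hB v a x = x + (a * B x v) • v :=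
  tvLin_apply B v a x

lemma tv_mul (hB : ∀ x, B x x = 0) (v : V) (a b : F) : tv hB v a * tv hB v b = tv hB v (a + b) :=
  LinearEquiv.ext fun x => tvLin_comp hB v a b x

lemma tv_zero (hB : ∀ x, B x x = 0) (v : V) : tv hB v 0 = 1 :=
  LinearEquiv.ext fun x => tvLin_zero v x

/-- the root group of `v` -/
def tvHom (hB : ∀ x, B x x = 0) (v : V) : Multiplicative F →* (V ≃ₗ[F] V) where
  toFun a := tv hB v a.toAdd
  map_one' := tv_zero hB v
  map_mul' a b := (tv_mul hB v a.toAdd b.toAdd).symm

lemma tv_mem (hB : ∀ x, B x x = 0) (v : V) (a : F) : tv hB v a ∈ Iso B := by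
  intro x y
  rw [tv_apply, tv_apply]
  simp only [map_add, map_smul, LinearMap.add_apply, LinearMap.smul_apply, hB, smul_eq_mul]
  rw [alt_swap hB y v]
  ring

/-- the subgroup generated by the transvections -/
def Tsub (hB : ∀ x, B x x = 0) : Subgroup (V ≃ₗ[F] V) :=
  Subgroup.closure {t | ∃ v a, t = tv hB v a}

lemma tv_mem_Tsub (hB : ∀ x, B x x = 0) (v : V) (a : F) : tv hB v a ∈ Tsub hB :=
  Subgroup.subset_closure ⟨v, a, rfl⟩

lemma Tsub_le (hB : ∀ x, B x x = 0) : Tsub hB ≤ Iso B := by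
  unfold Tsub
  rw [Subgroup.closure_le]
  rintro t ⟨v, a, rfl⟩
  exact tv_mem hB v a

end Alt

section Orth

variable {F V : Type*} [Field F] [AddCommGroup V] [Module F V]

/-- the reflection as a linear map -/
noncomputable def rfLin (Q : QuadraticForm F V) (x : V) : V →ₗ[F] V :=
  LinearMap.id - ((Q x)⁻¹ • polarBilin Q x).smulRight x

lemma rfLin_apply (Q : QuadraticForm F V) (x y : V) :
    rfLin Q x y = y - ((Q x)⁻¹ * polar Q x y) • x := by
  simp [rfLin]

lemma rfLin_rfLin (Q : QuadraticForm F V) {x : V} (hx : Q x ≠ 0) (y : V) : rfLin Q x (rfLin Q x y) = y := by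
  simp only [rfLin_apply, polar_sub_right, polar_smul_right, polar_self', smul_eq_mul]
  have h : (Q x)⁻¹ * (polar Q x y - (Q x)⁻¹ * polar Q x y * (2 * Q x)) = -((Q x)⁻¹ * polar Q x y) := by
    field_simp
    ring
  rw [h]
  module

/-- the reflection in the vector `x` -/
noncomputable def rf (Q : QuadraticForm F V) (x : V) (hx : Q x ≠ 0) : V ≃ₗ[F] V :=
  LinearEquiv.ofLinearMap (rfLin Q x) (rfLin Q x)
    (by ext y; exact rfLin_rfLin Q hx y) (by ext y; exact rfLin_rfLin Q hx y)

lemma rf_apply (Q : QuadraticForm F V) {x : V} (hx : Q x ≠ 0) (y : V) :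
    rf Q x hx y = y - ((Q x)⁻¹ * polar Q x y) • x := rfLin_apply Q x y

lemma rf_mem (Q : QuadraticForm F V) {x : V} (hx : Q x ≠ 0) : rf Q x hx ∈ orth Q := by
  intro y
  rw [rf_apply, sub_eq_add_neg, ← neg_smul, Qadd, Qsmul, polar_smul_right, polar_comm Q y x, smul_eq_mul]
  field_simp
  ring

/-- the subgroup generated by the reflections -/
def Rsub (Q : QuadraticForm F V) : Subgroup (V ≃ₗ[F] V) :=
  Subgroup.closure {t | ∃ (x : V) (hx : Q x ≠ 0), t = rf Q x hx}

lemma rf_mem_Rsub (Q : QuadraticForm F V) {x : V} (hx : Q x ≠ 0) : rf Q x hx ∈ Rsub Q :=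
  Subgroup.subset_closure ⟨x, hx, rfl⟩

/-- `diag (c, c⁻¹)` on the hyperbolic plane, as a linear map -/
noncomputable def hypLin (Q : QuadraticForm F V) (u u' : V) (c : F) : V →ₗ[F] V :=
  LinearMap.id + ((c - 1) • polarBilin Q u').smulRight u + ((c⁻¹ - 1) • polarBilin Q u).smulRight u'

lemma hypLin_apply (Q : QuadraticForm F V) (u u' : V) (c : F) (x : V) :
    hypLin Q u u' c x = x + ((c - 1) * polar Q u' x) • u + ((c⁻¹ - 1) * polar Q u x) • u' := by
  simp [hypLin]

/-- all Eichler elements of `u` and `w` lie in `N` -/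
def EichIn (Q : QuadraticForm F V) (N : Subgroup (V ≃ₗ[F] V)) : Prop :=
  ∀ (u w : V) (hu : Q u = 0) (huw : polar Q u w = 0), (eich Q u w hu huw).1 ∈ N

end Orth

end Pool.Agent.H24.UD
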