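import Pool.Agent.H24.UD.Defs

/-!
# Block E, module Dual: vectors with prescribed products

* `exists_dual`: there is a linear form `f` with `f a = 0`, `f b ≠ 0` (`Submodule.exists_le_ker_of_notMem` or
  `Submodule.exists_dual_map_eq_bot_of_notMem`), scale it to `f b = 1`; the map `w ↦ polar Q w .` is injective by `hnd`, so it is onto
  the dual space (finite dimension: `LinearMap.injective_iff_surjective_of_finrank_eq_finrank`, `Subspace.dual_finrank_eq`), so
  `f = polar Q w . = polar Q . w`.
* `exists_hyp`: `u ∉ span {w}` (otherwise `u = c w`, `c ≠ 0`, `w = c⁻¹ u`). `exists_dual` with `a = w`, `b = u` gives `y`;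
  `u' = y - Q y • u`: `Q u' = Q y + (Q y)² Q u - Q y polar (y, u) = 0`, `polar Q u u' = 1 - Q y · 2 Q u = 1`,
  `polar Q w u' = 0 - Q y polar (w, u) = 0`.
* `exists_perp`: `V` of dimension `≥ 4`; the space `x^⊥` (kernel of `polar Q x`) has dimension `≥ 3`, so it contains a singular
  `s ≠ 0` (`exists_singular`); `s ∉ span {x}` (`Q s = 0`, `Q x ≠ 0`), so `exists_dual` gives `t` with `polar Q x t = 0`,
  `polar Q s t = 1`. `y = t + (b - Q t) • s`.
-/

set_option autoImplicit false

namespace Pool.Agent.H24.UD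

open Module QuadraticMap Pool.Agent.H49.UDN

variable {F V : Type*} [Field F] [AddCommGroup V] [Module F V] [FiniteDimensional F V]
  {Q : QuadraticForm F V}

theorem exists_dual (hnd : ∀ x, (∀ y, polar Q x y = 0) → x = 0) {a b : V}
    (h : b ∉ Submodule.span F {a}) : ∃ w, polar Q a w = 0 ∧ polar Q b w = 1 := by
  obtain ⟨f, hfb, hfa⟩ := Submodule.exists_dual_map_eq_bot_of_notMem h inferInstance
  have hfa' : f a = 0 := by
    have h1 : f a ∈ (Submodule.span F {a}).map f :=
      Submodule.mem_map_of_mem (Submodule.mem_span_singleton_self a)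
    rw [hfa] at h1
    exact (Submodule.mem_bot F).1 h1
  have hinj : Function.Injective (polarBilin Q) := by
    rw [injective_iff_map_eq_zero]
    intro w hw
    refine hnd w fun y => ?_
    have h1 := LinearMap.congr_fun hw y
    exact h1
  have hsur : Function.Surjective (polarBilin Q) :=
    (LinearMap.injective_iff_surjective_of_finrank_eq_finrank
      (Subspace.dual_finrank_eq (K := F) (V := V)).symm).1 hinj
  obtain ⟨w, hw⟩ := hsur ((f b)⁻¹ • f)
  have h2 : ∀ y, polar Q w y = (f b)⁻¹ * f y := fun y => by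
    have h1 := LinearMap.congr_fun hw y
    exact h1
  refine ⟨w, ?_, ?_⟩
  · rw [polar_comm, h2, hfa', mul_zero]
  · rw [polar_comm, h2, inv_mul_cancel₀ hfb]

theorem exists_hyp (hnd : ∀ x, (∀ y, polar Q x y = 0) → x = 0) {u w : V} (hu : Q u = 0) (hu0 : u ≠ 0)
    (huw : polar Q u w = 0) (hw : w ∉ Submodule.span F {u}) :
    ∃ u', Q u' = 0 ∧ polar Q u u' = 1 ∧ polar Q u' w = 0 := by
  have h : u ∉ Submodule.span F {w} := by
    intro h
    obtain ⟨c, hc⟩ := Submodule.mem_span_singleton.1 h
    have hc0 : c ≠ 0 := by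
      rintro rfl
      exact hu0 (by rw [← hc, zero_smul])
    refine hw (Submodule.mem_span_singleton.2 ⟨c⁻¹, ?_⟩)
    rw [← hc, smul_smul, inv_mul_cancel₀ hc0, one_smul]
  obtain ⟨y, hwy, huy⟩ := exists_dual (Q := Q) hnd h
  have hyu : polar Q y u = 1 := by rw [polar_comm]; exact huy
  have hyw : polar Q y w = 0 := by rw [polar_comm]; exact hwy
  refine ⟨y + (-(Q y)) • u, ?_, ?_, ?_⟩
  · rw [Qadd, Qsmul, hu, polar_smul_right, hyu, smul_eq_mul]
    ring
  · rw [polar_add_right, polar_smul_right, huy, polar_self', hu, smul_eq_mul]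
    ring
  · rw [polar_add_left, polar_smul_left, hyw, huw, smul_eq_mul]
    ring

theorem exists_perp [Finite F] (hnd : ∀ x, (∀ y, polar Q x y = 0) → x = 0) (hdim : 4 ≤ finrank F V)
    {x : V} (hx : Q x ≠ 0) (b : F) : ∃ y, polar Q x y = 0 ∧ Q y = b := by
  have h1 : 3 ≤ finrank F (LinearMap.ker (polarBilin Q x)) := by
    have h2 := LinearMap.finrank_range_add_finrank_ker (polarBilin Q x)
    have h3 : finrank F (LinearMap.range (polarBilin Q x)) ≤ 1 := by
      have h4 := Submodule.finrank_le (LinearMap.range (polarBilin Q x))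
      rwa [finrank_self] at h4
    omega
  obtain ⟨s, hs, hs0, hQs⟩ := exists_singular Q (LinearMap.ker (polarBilin Q x)) h1
  have hxs : polar Q x s = 0 := hs
  have hns : s ∉ Submodule.span F {x} := by
    intro h
    obtain ⟨c, hc⟩ := Submodule.mem_span_singleton.1 h
    rw [← hc, Qsmul] at hQs
    have hc0 : c = 0 := by
      by_contra hc0
      exact mul_ne_zero (mul_ne_zero hc0 hc0) hx hQs
    exact hs0 (by rw [← hc, hc0, zero_smul])
  obtain ⟨t, hxt, hst⟩ := exists_dual (Q := Q) hnd hns
  have hts : polar Q t s = 1 := by rw [polar_comm]; exact hst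
  refine ⟨t + (b - Q t) • s, ?_, ?_⟩
  · rw [polar_add_right, polar_smul_right, hxt, hxs, smul_zero, add_zero]
  · rw [Qadd, Qsmul, hQs, polar_smul_right, hts, smul_eq_mul]
    ring

end Pool.Agent.H24.UD
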