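import Pool.Agent.H24.UD.Defs

/-!
# Block E, module Tor: the torus of a hyperbolic plane, and rules for Eichler elements

* `exists_tor`: `g = hypLin Q u u' c` with the inverse `hypLin Q u u' c⁻¹` (`hypLin_apply`;
  `polar Q u u = polar Q u' u' = 0`, `polar_self'`). Isometry: with `α = polar Q u' x`, `β = polar Q u x`,
  `Q (x + (c-1) α u + (c⁻¹-1) β u') = Q x + (c-1) α β + (c⁻¹-1) β α + (c-1)(c⁻¹-1) α β = Q x` (`Qadd`, `Qsmul`, `polar_add_right`, `polar_smul_right`).
  `g u = u + (c-1) u = c u`, `g w = w`.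
* `eich_conj'`: `eichLin_conj`, `g (eich (g⁻¹ x))`. `eich_smul_left`: both are `x + c polar(u,x) w - c polar(w,x) u - c² Q w polar(u,x) u`.
* `eich_span`: `eichLin Q u (c u) x = x + c polar(u,x) u - c polar(u,x) u = x` (`Q u = 0`).
* `eichHom`: `eichLin_comp`, `eichLin_zero`.
-/

set_option autoImplicit false

namespace Pool.Agent.H24.UD

open Module QuadraticMap Pool.Agent.H49.UDN

variable {F V : Type*} [Field F] [AddCommGroup V] [Module F V] {Q : QuadraticForm F V}

private theorem hyp_comp {u u' : V} (hu : Q u = 0) (hu' : Q u' = 0) (h : polar Q u u' = 1) {c d : F}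
    (hc : c ≠ 0) (hd : d ≠ 0) (x : V) : hypLin Q u u' c (hypLin Q u u' d x) = hypLin Q u u' (c * d) x := by
  have h' : polar Q u' u = 1 := by rw [polar_comm]; exact h
  have huu : polar Q u u = 0 := by rw [polar_self', hu, mul_zero]
  have huu' : polar Q u' u' = 0 := by rw [polar_self', hu', mul_zero]
  have e1 : polar Q u' (hypLin Q u u' d x) = d * polar Q u' x := by
    rw [hypLin_apply]
    simp only [polar_add_right, polar_smul_right, smul_eq_mul, h', huu']
    ring
  have e2 : polar Q u (hypLin Q u u' d x) = d⁻¹ * polar Q u x := by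
    rw [hypLin_apply]
    simp only [polar_add_right, polar_smul_right, smul_eq_mul, h, huu]
    ring
  rw [hypLin_apply Q u u' c, e1, e2, hypLin_apply Q u u' d, hypLin_apply Q u u' (c * d), mul_inv]
  module

private theorem hyp_one {u u' : V} (x : V) : hypLin Q u u' 1 x = x := by
  rw [hypLin_apply, inv_one, sub_self, zero_mul, zero_mul, zero_smul, zero_smul, add_zero, add_zero]

theorem exists_tor {u u' w : V} (hu : Q u = 0) (hu' : Q u' = 0) (h : polar Q u u' = 1)
    (hw : polar Q u w = 0) (hw' : polar Q u' w = 0) {c : F} (hc : c ≠ 0) :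
    ∃ g ∈ orth Q, g u = c • u ∧ g w = w := by
  have hci : c⁻¹ ≠ 0 := inv_ne_zero hc
  have h' : polar Q u' u = 1 := by rw [polar_comm]; exact h
  have huu : polar Q u u = 0 := by rw [polar_self', hu, mul_zero]
  refine ⟨LinearEquiv.ofLinearMap (hypLin Q u u' c) (hypLin Q u u' c⁻¹) ?_ ?_, ?_, ?_, ?_⟩
  · ext x
    rw [LinearMap.comp_apply, hyp_comp hu hu' h hc hci, mul_inv_cancel₀ hc, hyp_one]
    rfl
  · ext x
    rw [LinearMap.comp_apply, hyp_comp hu hu' h hci hc, inv_mul_cancel₀ hc, hyp_one]
    rfl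
  · intro x
    show Q (hypLin Q u u' c x) = Q x
    rw [hypLin_apply, add_assoc, Qadd, Qadd, Qsmul, Qsmul, hu, hu']
    have hxu : polar Q x u = polar Q u x := polar_comm _ _ _
    have hxu' : polar Q x u' = polar Q u' x := polar_comm _ _ _
    simp only [polar_add_right, polar_smul_right, polar_smul_left, smul_eq_mul, h, hxu, hxu']
    have e : c * c⁻¹ = 1 := mul_inv_cancel₀ hc
    linear_combination polar Q u x * polar Q u' x * e
  · show hypLin Q u u' c u = c • u
    rw [hypLin_apply, h', huu]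
    module
  · show hypLin Q u u' c w = w
    rw [hypLin_apply, hw, hw', mul_zero, mul_zero, zero_smul, zero_smul, add_zero, add_zero]

theorem eich_conj' {g : V ≃ₗ[F] V} (hg : g ∈ orth Q) {u w : V} (hu : Q u = 0) (huw : polar Q u w = 0) :
    ∃ (h1 : Q (g u) = 0) (h2 : polar Q (g u) (g w) = 0),
      g * (eich Q u w hu huw).1 * g⁻¹ = (eich Q (g u) (g w) h1 h2).1 := by
  have h1 : Q (g u) = 0 := by rw [hg u, hu]
  have h2 : polar Q (g u) (g w) = 0 := by
    have h3 := orth_polar (⟨g, hg⟩ : orth Q) u w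
    simp only at h3
    rw [h3, huw]
  refine ⟨h1, h2, ?_⟩
  apply LinearEquiv.ext
  intro x
  rw [LinearEquiv.mul_apply, LinearEquiv.mul_apply, eich_apply, eich_apply]
  have h3 := eichLin_conj (⟨g, hg⟩ : orth Q) u w (g⁻¹ x)
  simp only at h3
  rw [h3, ← LinearEquiv.mul_apply, mul_inv_cancel]
  rfl

theorem eich_smul_left {u w : V} {c : F} (hu : Q u = 0) (huw : polar Q u w = 0) (h1 : Q (c • u) = 0)
    (h2 : polar Q (c • u) w = 0) (h3 : polar Q u (c • w) = 0) :
    eich Q (c • u) w h1 h2 = eich Q u (c • w) hu h3 := by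
  apply orth_ext
  intro x
  rw [eich_apply, eich_apply, eichLin_apply, eichLin_apply, Qsmul]
  simp only [polar_smul_left, smul_eq_mul]
  module

theorem eich_span {u w : V} (hu : Q u = 0) (huw : polar Q u w = 0) (h : w ∈ Submodule.span F {u}) :
    (eich Q u w hu huw).1 = 1 := by
  obtain ⟨c, rfl⟩ := Submodule.mem_span_singleton.1 h
  apply LinearEquiv.ext
  intro x
  rw [eich_apply, eichLin_apply, Qsmul, hu]
  simp only [polar_smul_left, smul_eq_mul]
  show _ = x
  module

theorem eich_zero {w : V} (hu : Q (0 : V) = 0) (huw : polar Q 0 w = 0) : (eich Q 0 w hu huw).1 = 1 := by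
  apply LinearEquiv.ext
  intro x
  rw [eich_apply, eichLin_apply, polar_zero_left]
  show _ = x
  simp

/-- the one parameter group `a ↦ E(u, a w)` -/
theorem eichHom {u w : V} (hu : Q u = 0) (huw : polar Q u w = 0) :
    ∃ f : Multiplicative F →* (V ≃ₗ[F] V), ∀ (a : F) (h : polar Q u (a • w) = 0),
      f (Multiplicative.ofAdd a) = (eich Q u (a • w) hu h).1 := by
  have hh : ∀ a : F, polar Q u (a • w) = 0 := by
    intro a
    rw [polar_smul_right, huw, smul_zero]
  refine ⟨{ toFun := fun a => (eich Q u (a.toAdd • w) hu (hh a.toAdd)).1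
            map_one' := ?_
            map_mul' := ?_ }, fun a h => rfl⟩
  · apply LinearEquiv.ext
    intro x
    rw [eich_apply, toAdd_one, zero_smul, eichLin_zero]
    rfl
  · intro a b
    apply LinearEquiv.ext
    intro x
    rw [LinearEquiv.mul_apply, eich_apply, eich_apply, eich_apply, eichLin_comp Q u _ _ hu (hh _) (hh _),
      toAdd_mul, add_smul]

end Pool.Agent.H24.UD
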