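import Pool.Agent.H24.UD.Small
import Pool.Agent.H24.UD.Dual
import Pool.Agent.H24.UD.Tor

/-!
# Block E, module EiN: a normal subgroup of small index contains all Eichler elements

Let `u, w` be given. If `u = 0` or `w ∈ span {u}` the element is `1` (`eich_zero`, `eich_span`). Otherwise `exists_hyp` gives `u'`.
`hom_mem` for the homomorphism `f` of `eichHom` (values in `orth Q`), at `a = 1` (`one_smul`): let `f a ∈ N`, `l ≠ 0`; `exists_tor` with
`c = l ^ 2` gives `g ∈ orth Q` with `g u = l ^ 2 • u`, `g w = w`, so `g (a • w) = a • w` and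
`g f(a) g⁻¹ = E(l² u, a w) = E(u, l² a w) = f (l ^ 2 * a)` (`eich_conj'`, `eich_smul_left`, `smul_smul`) lies in `N`.
-/

set_option autoImplicit false

namespace Pool.Agent.H24.UD

open Module QuadraticMap Pool.Agent.H49.UDN

variable {F V : Type*} [Field F] [Finite F] [AddCommGroup V] [Module F V] [FiniteDimensional F V]
  {Q : QuadraticForm F V}

private lemma EiN_congr {u w w' : V} (hu : Q u = 0) (h : w = w') (h1 : polar Q u w = 0)
    (h2 : polar Q u w' = 0) : (eich Q u w hu h1).1 = (eich Q u w' hu h2).1 := by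
  subst h
  rfl

theorem eichIn_of_small [Finite (V ≃ₗ[F] V)] (hnd : ∀ x, (∀ y, polar Q x y = 0) → x = 0)
    (h2 : (2 : F) ≠ 0) {N : Subgroup (V ≃ₗ[F] V)} (hN : N ≤ orth Q) (hNn : NormIn (orth Q) N) {K : ℕ}
    (hK : K < Nat.card F) (h : Nat.card (orth Q) ≤ K * Nat.card N) : EichIn Q N := by
  intro u w hu huw
  by_cases hu0 : u = 0
  · subst hu0
    rw [eich_zero]
    exact N.one_mem
  by_cases hw : w ∈ Submodule.span F {u}
  · rw [eich_span hu huw hw]
    exact N.one_mem
  obtain ⟨u', hu', h1, hw'⟩ := exists_hyp hnd hu hu0 huw hw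
  obtain ⟨f, hf⟩ := eichHom hu huw
  have pol : ∀ a : F, polar Q u (a • w) = 0 := fun a => by
    rw [polar_smul_right, huw, smul_zero]
  have hmem : ∀ a, f a ∈ orth Q := by
    intro a
    have e1 : f a = (eich Q u (a.toAdd • w) hu (pol _)).1 := hf a.toAdd (pol _)
    rw [e1]
    exact (eich Q u (a.toAdd • w) hu (pol _)).2
  have hs : ∀ l a : F, l ≠ 0 → f (Multiplicative.ofAdd a) ∈ N →
      f (Multiplicative.ofAdd (l ^ 2 * a)) ∈ N := by
    intro l a hl ha
    obtain ⟨g, hg, hgu, hgw⟩ := exists_tor hu hu' h1 huw hw' (pow_ne_zero 2 hl)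
    obtain ⟨h3, h4, e⟩ := eich_conj' hg hu (pol a)
    have key : ∀ (u1 w1 : V) (hu1 : Q u1 = 0) (h12 : polar Q u1 w1 = 0), u1 = l ^ 2 • u →
        w1 = a • w → (eich Q u1 w1 hu1 h12).1 = (eich Q u ((l ^ 2 * a) • w) hu (pol _)).1 := by
      intro u1 w1 hu1 h12 e1 e2
      subst e1
      subst e2
      have h5 : polar Q u (l ^ 2 • (a • w)) = 0 := by rw [smul_smul]; exact pol _
      rw [eich_smul_left hu (pol a) hu1 h12 h5]
      exact EiN_congr hu (smul_smul _ _ _) _ _
    have e3 := key _ _ h3 h4 hgu (by rw [map_smul, hgw])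
    rw [hf _ (pol _), ← e3, ← e]
    rw [hf _ (pol _)] at ha
    exact hNn g hg _ ha
  have h6 := hom_mem h2 hN hK h f hmem hs 1
  rw [hf _ (pol _)] at h6
  rwa [EiN_congr hu (one_smul F w) (pol 1) huw] at h6

end Pool.Agent.H24.UD
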