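import Pool.Agent.H24.UD.MvB

/-!
# Block E, module Rf: reflections commute modulo `N`

* `rf_conj`: `g (rf x (g⁻¹ y)) = y - (Q x)⁻¹ polar(x, g⁻¹ y) g x`, `polar(x, g⁻¹ y) = polar(g x, y)` (`polar_of_isom` or `orth_polar`), `Q (g x) = Q x`.
* `rf_comm`: both products are `z - (Q y)⁻¹ polar(y,z) y - (Q x)⁻¹ polar(x,z) x` (`polar_comm`).
* `rf_mod`: `exists_perp` gives `y'` with `polar Q x y' = 0`, `Q y' = Q y`; `eich_trans` gives `n ∈ N` with `n y' = y`, so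
  `rf y = n (rf y') n⁻¹` (`rf_conj`, `n ∈ orth Q`). With `a = rf x`, `b = rf y'`, `a b = b a`:
  `a (n b n⁻¹) a⁻¹ (n b n⁻¹)⁻¹ = (a n a⁻¹) (b ((a n⁻¹ a⁻¹) n) b⁻¹) n⁻¹ ∈ N` by `hNn`.
-/

set_option autoImplicit false

namespace Pool.Agent.H24.UD

open Module QuadraticMap Pool.Agent.H49.UDN

variable {F V : Type*} [Field F] [AddCommGroup V] [Module F V] {Q : QuadraticForm F V}

lemma rf_conj {g : V ≃ₗ[F] V} (hg : g ∈ orth Q) {x : V} (hx : Q x ≠ 0) (hx' : Q (g x) ≠ 0) :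
    g * rf Q x hx * g⁻¹ = rf Q (g x) hx' := by
  apply LinearEquiv.ext
  intro y
  have hgg : g (g⁻¹ y) = y := by
    rw [← LinearEquiv.mul_apply, mul_inv_cancel]
    rfl
  have h1 : polar Q x (g⁻¹ y) = polar Q (g x) y := by
    have h := polar_of_isom Q (fun a b => map_add g a b) (mem_orth.1 hg) x (g⁻¹ y)
    rw [hgg] at h
    exact h.symm
  rw [LinearEquiv.mul_apply, LinearEquiv.mul_apply, rf_apply, rf_apply, map_sub, map_smul, hgg, h1,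
    mem_orth.1 hg x]

lemma rf_comm {x y : V} (hx : Q x ≠ 0) (hy : Q y ≠ 0) (h : polar Q x y = 0) :
    rf Q x hx * rf Q y hy = rf Q y hy * rf Q x hx := by
  apply LinearEquiv.ext
  intro z
  have h' : polar Q y x = 0 := by rw [polar_comm]; exact h
  rw [LinearEquiv.mul_apply, LinearEquiv.mul_apply, rf_apply, rf_apply, rf_apply, rf_apply]
  simp only [sub_eq_add_neg, ← neg_smul, polar_add_right, polar_smul_right, h, h', smul_zero, add_zero]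
  module

theorem rf_mod [Finite F] [FiniteDimensional F V] (hnd : ∀ x, (∀ y, polar Q x y = 0) → x = 0)
    (h2 : (2 : F) ≠ 0) (hdim : 6 ≤ finrank F V) {N : Subgroup (V ≃ₗ[F] V)} (hN : N ≤ orth Q)
    (hNn : NormIn (orth Q) N) (hE : EichIn Q N) {x y : V} (hx : Q x ≠ 0) (hy : Q y ≠ 0) :
    rf Q x hx * rf Q y hy * (rf Q x hx)⁻¹ * (rf Q y hy)⁻¹ ∈ N := by
  obtain ⟨y', hxy', hQ⟩ := exists_perp hnd (by omega) hx (Q y)
  have hy' : Q y' ≠ 0 := by rw [hQ]; exact hy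
  obtain ⟨n, hn, hny⟩ := eich_trans hnd h2 hdim hE hQ hy'
  have hrf : ∀ (z : V) (hz : Q z ≠ 0), n y' = z → n * rf Q y' hy' * n⁻¹ = rf Q z hz := by
    intro z hz h
    subst h
    exact rf_conj (hN hn) hy' hz
  rw [← hrf y hy hny]
  have hab := rf_comm hx hy' hxy'
  have ha : rf Q x hx ∈ orth Q := rf_mem Q hx
  have hb : rf Q y' hy' ∈ orth Q := rf_mem Q hy'
  generalize rf Q x hx = a at hab ha ⊢
  generalize rf Q y' hy' = b at hab hb ⊢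
  have key : a * (n * b * n⁻¹) * a⁻¹ * (n * b * n⁻¹)⁻¹ =
      (a * n * a⁻¹) * (b * ((a * n⁻¹ * a⁻¹) * n) * b⁻¹) * n⁻¹ := by
    calc a * (n * b * n⁻¹) * a⁻¹ * (n * b * n⁻¹)⁻¹
        = (a * n * a⁻¹) * (a * b) * n⁻¹ * a⁻¹ * n * b⁻¹ * n⁻¹ := by group
      _ = (a * n * a⁻¹) * (b * ((a * n⁻¹ * a⁻¹) * n) * b⁻¹) * n⁻¹ := by rw [hab]; group
  rw [key]
  have h1 : a * n * a⁻¹ ∈ N := hNn a ha n hn
  have h2 : a * n⁻¹ * a⁻¹ ∈ N := hNn a ha n⁻¹ (N.inv_mem hn)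
  exact N.mul_mem (N.mul_mem h1 (hNn b hb _ (N.mul_mem h2 hn))) (N.inv_mem hn)

end Pool.Agent.H24.UD
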