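import Pool.Agent.H24.UD.Defs

/-!
# Block E, module RfG: the orthogonal group is generated by the reflections

* `rf_swap`: `z = x' - x`: `Q z = 2 Q x - polar(x, x')`, so `rf z x = x - (Q z)⁻¹ polar(z, x) z = x + z` since
  `polar(z, x) = polar(x', x) - 2 Q x = - Q z`.
* `exists_rot`: `x, x'` with `Q x = Q x' ≠ 0`: `Q (x' - x) + Q (x' + x) = 4 Q x ≠ 0`. If `Q (x' - x) ≠ 0` take `rf (x' - x)` (it maps `x'` to `x`, as
  a reflection is an involution). Otherwise `rf (x' + x)` maps `x'` to `-x` (`rf_swap` for `x'`, `-x`: difference `-x - x'`; or compute) and `rf x` maps `-x` to `x`.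
  Vectors orthogonal to `x` and `x'` are fixed.
* `orth_le_Rsub`: there is a basis `v` of orthogonal vectors (`LinearMap.BilinForm.exists_orthogonal_basis` for the symmetric form `polarBilin Q`, `2`
  invertible); `Q (v i) ≠ 0`, otherwise `v i` is orthogonal to all `v j`, so to everything. Claim: for every finset `S` of indices and every
  `g ∈ orth Q` with `g (v i) = v i` for all `i ∈ S`: `g ∈ Rsub Q`. Induction on the number of indices not in `S`: if `S = univ` then
  `g = 1` (`Basis.ext`). Otherwise let `k ∉ S`, `x = v k`, `x' = g x`: `x'` is orthogonal to `v i = g (v i)`, `i ∈ S`. `exists_rot` gives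
  `ρ ∈ Rsub Q` with `ρ x' = x` and `ρ (v i) = v i` for `i ∈ S`; `ρ * g` fixes `v i` for `i ∈ insert k S`, so `ρ * g ∈ Rsub Q`.
-/

set_option autoImplicit false

namespace Pool.Agent.H24.UD

open Module QuadraticMap Pool.Agent.H49.UDN

variable {F V : Type*} [Field F] [AddCommGroup V] [Module F V] {Q : QuadraticForm F V}

theorem exists_rot (h2 : (2 : F) ≠ 0) {x x' : V} (hQ : Q x' = Q x) (hx : Q x ≠ 0) :
    ∃ ρ ∈ Rsub Q, ρ ∈ orth Q ∧ ρ x' = x ∧ ∀ w, polar Q x w = 0 → polar Q x' w = 0 → ρ w = w := by
  have hsub : ∀ a b : V, Q (a - b) = Q a + Q b - polar Q a b := by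
    intro a b
    rw [sub_eq_add_neg, Qadd, ← neg_one_smul F b, Qsmul, polar_smul_right, smul_eq_mul]
    ring
  by_cases hz : Q (x' - x) = 0
  · have hp : polar Q x' x = 2 * Q x := by
      rw [hsub, hQ] at hz
      linear_combination -hz
    have hy : Q (x' + x) = 4 * Q x := by
      rw [Qadd, hQ, hp]
      ring
    have h4 : (4 : F) ≠ 0 := by
      have : (4 : F) = 2 * 2 := by norm_num
      rw [this]
      exact mul_ne_zero h2 h2
    have hy0 : Q (x' + x) ≠ 0 := by
      rw [hy]
      exact mul_ne_zero h4 hx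
    refine ⟨rf Q x hx * rf Q (x' + x) hy0, mul_mem (rf_mem_Rsub Q hx) (rf_mem_Rsub Q hy0),
      mul_mem (rf_mem Q hx) (rf_mem Q hy0), ?_, fun w hw hw' => ?_⟩
    · have e1 : rf Q (x' + x) hy0 x' = -x := by
        have e2 : polar Q (x' + x) x' = Q (x' + x) := by
          rw [polar_add_left, polar_self', hQ, polar_comm Q x x', hp, hy]
          ring
        rw [rf_apply, e2, inv_mul_cancel₀ hy0, one_smul]
        abel
      rw [LinearEquiv.mul_apply, e1, map_neg, rf_apply, polar_self']
      have e3 : (Q x)⁻¹ * (2 * Q x) = 2 := by field_simp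
      rw [e3]
      module
    · have e1 : polar Q (x' + x) w = 0 := by rw [polar_add_left, hw, hw', add_zero]
      rw [LinearEquiv.mul_apply, rf_apply Q hy0, e1, mul_zero, zero_smul, sub_zero, rf_apply, hw,
        mul_zero, zero_smul, sub_zero]
  · refine ⟨rf Q (x' - x) hz, rf_mem_Rsub Q hz, rf_mem Q hz, ?_, fun w hw hw' => ?_⟩
    · have e2 : polar Q (x' - x) x' = Q (x' - x) := by
        rw [polar_sub_left, polar_self', hsub, hQ, polar_comm Q x x']
        ring
      rw [rf_apply, e2, inv_mul_cancel₀ hz, one_smul]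
      abel
    · have e1 : polar Q (x' - x) w = 0 := by rw [polar_sub_left, hw, hw', sub_zero]
      rw [rf_apply, e1, mul_zero, zero_smul, sub_zero]

theorem orth_le_Rsub [FiniteDimensional F V] (hnd : ∀ x, (∀ y, polar Q x y = 0) → x = 0)
    (h2 : (2 : F) ≠ 0) : orth Q ≤ Rsub Q := by
  haveI : Invertible (2 : F) := invertibleOfNonzero h2
  have hsymm : (polarBilin Q).IsSymm := ⟨fun x y => polar_comm Q x y⟩
  obtain ⟨v, hv⟩ := LinearMap.BilinForm.exists_orthogonal_basis hsymm
  have hvo : ∀ i j, i ≠ j → polar Q (v i) (v j) = 0 := fun i j hij => hv hij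
  have hvQ : ∀ i, Q (v i) ≠ 0 := by
    intro i hi
    apply v.ne_zero i
    apply hnd
    have h1 : polarBilin Q (v i) = 0 := by
      refine v.ext fun j => ?_
      show polar Q (v i) (v j) = 0
      by_cases hij : i = j
      · rw [← hij, polar_self', hi, mul_zero]
      · exact hvo i j hij
    intro y
    exact LinearMap.congr_fun h1 y
  have key : ∀ (n : ℕ) (S : Finset (Fin (finrank F V))), (Finset.univ \ S).card = n →
      ∀ g ∈ orth Q, (∀ i ∈ S, g (v i) = v i) → g ∈ Rsub Q := by
    intro n
    induction n with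
    | zero =>
      intro S hS g _ hgS
      rw [Finset.card_eq_zero, Finset.sdiff_eq_empty_iff_subset] at hS
      have h1 : g = 1 := v.ext' fun i => hgS i (hS (Finset.mem_univ i))
      rw [h1]
      exact one_mem _
    | succ n ih =>
      intro S hS g hg hgS
      obtain ⟨k, hk⟩ : (Finset.univ \ S).Nonempty := by
        rw [← Finset.card_pos, hS]
        omega
      have hkS : k ∉ S := (Finset.mem_sdiff.1 hk).2
      obtain ⟨ρ, hρ1, hρ2, hρ3, hρ4⟩ := exists_rot h2 (hg (v k)) (hvQ k)
      have h1 : ρ * g ∈ Rsub Q := by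
        refine ih (insert k S) ?_ (ρ * g) (mul_mem hρ2 hg) fun i hi => ?_
        · rw [Finset.sdiff_insert, Finset.card_erase_of_mem hk, hS]
          rfl
        · rw [LinearEquiv.mul_apply]
          rcases Finset.mem_insert.1 hi with rfl | hi
          · exact hρ3
          · have hne : k ≠ i := fun h => hkS (h ▸ hi)
            have h2 : polar Q (g (v k)) (v i) = 0 := by
              have h3 := orth_polar ⟨g, hg⟩ (v k) (v i)
              rw [hvo k i hne] at h3
              have h4 : g (v i) = v i := hgS i hi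
              have h5 : polar Q (g (v k)) (g (v i)) = 0 := h3
              rwa [h4] at h5
            rw [hgS i hi]
            exact hρ4 _ (hvo k i hne) h2
      have h2 : ρ⁻¹ * (ρ * g) ∈ Rsub Q := mul_mem (inv_mem hρ1) h1
      rwa [inv_mul_cancel_left] at h2
  intro g hg
  exact key _ ∅ rfl g hg fun i hi => absurd hi (Finset.notMem_empty i)

end Pool.Agent.H24.UD
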