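import Pool.Agent.H24.UD.TvGA

/-!
# Block E, module TvGB: the symplectic group is generated by the transvections

Strong induction on `finrank F V - finrank F (fx g)`. If `g = 1` it is clear. Otherwise, if some `x` has `B x (g x) ≠ 0`, `step_a`
gives `t ∈ Tsub hB` with `fx g < fx (t * g)`, so `finrank (fx g) < finrank (fx (t * g))` (`Submodule.finrank_lt_finrank_of_lt`),
`t * g ∈ Tsub hB` by the induction hypothesis, `g = t⁻¹ * (t * g)`. If all `B x (g x) = 0`: `step_b`, then `step_a` for `t * g`.
-/

set_option autoImplicit false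

namespace Pool.Agent.H24.UD

open Module QuadraticMap Pool.Agent.H49.UDN

variable {F V : Type*} [Field F] [AddCommGroup V] [Module F V] {B : LinearMap.BilinForm F V}

theorem Iso_le_Tsub [FiniteDimensional F V] (hB : ∀ x, B x x = 0) (hnd : ∀ x, (∀ y, B x y = 0) → x = 0)
    (h2 : (2 : F) ≠ 0) : Iso B ≤ Tsub hB := by
  have key : ∀ n : ℕ, ∀ g ∈ Iso B, finrank F V - finrank F (fx g) = n → g ∈ Tsub hB := by
    intro n
    induction n using Nat.strong_induction_on with
    | _ n ih =>
      have stepA : ∀ g ∈ Iso B, finrank F V - finrank F (fx g) ≤ n → ∀ x, B x (g x) ≠ 0 → g ∈ Tsub hB := by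
        intro g hg hn x hx
        obtain ⟨t, ht, hlt⟩ := step_a hB hg hx
        have h1 := Submodule.finrank_lt_finrank_of_lt hlt
        have h2 := Submodule.finrank_le (fx (t * g))
        have h3 : t * g ∈ Iso B := (Iso B).mul_mem (Tsub_le hB ht) hg
        have h4 : t * g ∈ Tsub hB := ih _ (by omega) (t * g) h3 rfl
        have h5 : g = t⁻¹ * (t * g) := by group
        rw [h5]
        exact (Tsub hB).mul_mem ((Tsub hB).inv_mem ht) h4
      intro g hg hn
      by_cases h1 : g = 1
      · rw [h1]
        exact (Tsub hB).one_mem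
      by_cases hx : ∃ x, B x (g x) ≠ 0
      · obtain ⟨x, hx⟩ := hx
        exact stepA g hg hn.le x hx
      · push Not at hx
        obtain ⟨t, ht, hle, x, hx⟩ := step_b hB hnd h2 hg h1 hx
        have h2 := Submodule.finrank_mono hle
        have h3 : t * g ∈ Iso B := (Iso B).mul_mem (Tsub_le hB ht) hg
        have h4 : t * g ∈ Tsub hB := stepA (t * g) h3 (by omega) x hx
        have h5 : g = t⁻¹ * (t * g) := by group
        rw [h5]
        exact (Tsub hB).mul_mem ((Tsub hB).inv_mem ht) h4
  intro g hg
  exact key _ g hg rfl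

end Pool.Agent.H24.UD
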