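import Pool.Agent.H24.UD.Defs

/-!
# Block E, module TvTr: transvections move every nonzero vector to every other one

* `tv_conj`: `g (tv v a (g⁻¹ x)) = x + a B(g⁻¹ x, v) g v` and `B(g⁻¹ x, v) = B(x, g v)`.
* `tv_scal`: `tv_apply`.
* `move_one`: `tv (v - u) (B u v)⁻¹`: `u + (B u v)⁻¹ B(u, v - u) (v - u) = v` as `B u u = 0`.
* `move`: if `B u v = 0`: there are `w₁` with `B u w₁ ≠ 0` and `w₂` with `B w₂ v ≠ 0` (`hnd`, `alt_swap`); one of `w₁`, `w₂`, `w₁ + w₂`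
  has both properties; `move_one` twice.
-/

set_option autoImplicit false

namespace Pool.Agent.H24.UD

open Module QuadraticMap Pool.Agent.H49.UDN

variable {F V : Type*} [Field F] [AddCommGroup V] [Module F V] {B : LinearMap.BilinForm F V}

lemma tv_conj (hB : ∀ x, B x x = 0) {g : V ≃ₗ[F] V} (hg : g ∈ Iso B) (v : V) (a : F) :
    g * tv hB v a * g⁻¹ = tv hB (g v) a := by
  refine LinearEquiv.ext fun x => ?_
  have h1 : g (g⁻¹ x) = x := by
    rw [← LinearEquiv.mul_apply, mul_inv_cancel]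
    rfl
  have h2 : B (g⁻¹ x) v = B x (g v) := by
    have := hg (g⁻¹ x) v
    rw [h1] at this
    exact this.symm
  rw [LinearEquiv.mul_apply, LinearEquiv.mul_apply, tv_apply, tv_apply, map_add, map_smul, h1, h2]

lemma tv_scal (hB : ∀ x, B x x = 0) (v : V) (l a : F) : tv hB (l • v) a = tv hB v (l ^ 2 * a) := by
  refine LinearEquiv.ext fun x => ?_
  rw [tv_apply, tv_apply, map_smul, smul_smul, smul_eq_mul]
  congr 2
  ring

lemma move_one (hB : ∀ x, B x x = 0) {u v : V} (h : B u v ≠ 0) : ∃ g ∈ Tsub hB, g u = v := by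
  refine ⟨tv hB (v - u) (B u v)⁻¹, tv_mem_Tsub hB _ _, ?_⟩
  rw [tv_apply, map_sub, hB, sub_zero, inv_mul_cancel₀ h, one_smul]
  abel

theorem tv_move (hB : ∀ x, B x x = 0) (hnd : ∀ x, (∀ y, B x y = 0) → x = 0) {u v : V} (hu : u ≠ 0)
    (hv : v ≠ 0) : ∃ g ∈ Tsub hB, g u = v := by
  by_cases huv : B u v = 0
  swap
  · exact move_one hB huv
  obtain ⟨w₁, h1⟩ : ∃ w, B u w ≠ 0 := by
    by_contra hcon
    push Not at hcon
    exact hu (hnd u hcon)
  obtain ⟨w₂, h2⟩ : ∃ w, B w v ≠ 0 := by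
    by_contra hcon
    push Not at hcon
    refine hv (hnd v fun y => ?_)
    rw [alt_swap hB y v, hcon y, neg_zero]
  obtain ⟨w, h3, h4⟩ : ∃ w, B u w ≠ 0 ∧ B w v ≠ 0 := by
    by_cases h5 : B w₁ v = 0
    · by_cases h6 : B u w₂ = 0
      · refine ⟨w₁ + w₂, ?_, ?_⟩
        · rw [map_add, h6, add_zero]
          exact h1
        · rw [map_add, LinearMap.add_apply, h5, zero_add]
          exact h2
      · exact ⟨w₂, h6, h2⟩
    · exact ⟨w₁, h1, h5⟩
  obtain ⟨g₁, hg₁, e₁⟩ := move_one hB h3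
  obtain ⟨g₂, hg₂, e₂⟩ := move_one hB h4
  refine ⟨g₂ * g₁, mul_mem hg₂ hg₁, ?_⟩
  rw [LinearEquiv.mul_apply, e₁, e₂]

end Pool.Agent.H24.UD
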