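import Pool.Agent.H24.UD.Small
import Pool.Agent.H24.UD.TvTr

/-!
# Block E, module TvN: a normal subgroup of small index contains all transvections

`Subgroup.closure_le`; for `t = tv hB v a` use `hom_mem` for `f = tvHom hB v` (`v ≠ 0`; for `v = 0` the
transvection is `1`): if `tv v a ∈ N` and `l ≠ 0` take `g ∈ Tsub hB ≤ Iso B` (`tv_move`, `Tsub_le`) with `g v = l • v`; then
`g * tv v a * g⁻¹ = tv (l • v) a = tv v (l ^ 2 * a) ∈ N` (`tv_conj`, `tv_scal`, `hNn`).
-/

set_option autoImplicit false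

namespace Pool.Agent.H24.UD

open Module QuadraticMap Pool.Agent.H49.UDN

variable {F V : Type*} [Field F] [Finite F] [AddCommGroup V] [Module F V] {B : LinearMap.BilinForm F V}

theorem Tsub_le_of_small [Finite (V ≃ₗ[F] V)] (hB : ∀ x, B x x = 0) (hnd : ∀ x, (∀ y, B x y = 0) → x = 0)
    (h2 : (2 : F) ≠ 0) {N : Subgroup (V ≃ₗ[F] V)} (hN : N ≤ Iso B) (hNn : NormIn (Iso B) N) {K : ℕ}
    (hK : K < Nat.card F) (h : Nat.card (Iso B) ≤ K * Nat.card N) : Tsub hB ≤ N := by
  unfold Tsub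
  rw [Subgroup.closure_le]
  rintro t ⟨v, a, rfl⟩
  by_cases hv : v = 0
  · subst hv
    have h1 : tv hB (0 : V) a = 1 := by
      refine LinearEquiv.ext fun x => ?_
      rw [tv_apply, smul_zero, add_zero]
      rfl
    rw [SetLike.mem_coe, h1]
    exact N.one_mem
  · refine hom_mem h2 hN hK h (tvHom hB v) (fun b => tv_mem hB v _) ?_ a
    intro l b hl hb
    obtain ⟨g, hg, e⟩ := tv_move hB hnd hv (smul_ne_zero hl hv)
    have h3 := hNn g (Tsub_le hB hg) _ hb
    change g * tv hB v b * g⁻¹ ∈ N at h3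
    change tv hB v (l ^ 2 * b) ∈ N
    rw [tv_conj hB (Tsub_le hB hg), e, tv_scal] at h3
    exact h3

end Pool.Agent.H24.UD
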