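import Pool.Agent.H24.UD.Core
import Pool.Agent.H24.UD.TvN
import Pool.Agent.H24.UD.TvGB
import Pool.Agent.H24.UD.EiN
import Pool.Agent.H24.UD.Rf
import Pool.Agent.H24.UD.RfG
import Pool.Agent.H24.UD.Abel

/-!
# Block E: subgroups of bounded index of the isometry groups
-/

set_option autoImplicit false

namespace Pool.Agent.H24.UD

open Module QuadraticMap Pool.Agent.H49.UDN

section gen

variable {F V : Type*} [Field F] [Finite F] [AddCommGroup V] [Module F V] [FiniteDimensional F V]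

theorem alt_index {B : LinearMap.BilinForm F V} [Finite (V ≃ₗ[F] V)] (hB : ∀ x, B x x = 0)
    (hnd : ∀ x, (∀ y, B x y = 0) → x = 0) (h2 : (2 : F) ≠ 0) {H : Subgroup (V ≃ₗ[F] V)}
    (hH : H ≤ Iso B) {C : ℕ} (hC : C.factorial < Nat.card F) (h : Nat.card (Iso B) ≤ C * Nat.card H) :
    H = Iso B := by
  obtain ⟨N, hNH, hNn, hc⟩ := exists_core hH h
  have h1 := Tsub_le_of_small hB hnd h2 (hNH.trans hH) hNn hC hc
  exact le_antisymm hH (((Iso_le_Tsub hB hnd h2).trans h1).trans hNH)

theorem orth_index {Q : QuadraticForm F V} [Finite (V ≃ₗ[F] V)] (hnd : ∀ x, (∀ y, polar Q x y = 0) → x = 0)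
    (h2 : (2 : F) ≠ 0) (hdim : 6 ≤ finrank F V) {H : Subgroup (V ≃ₗ[F] V)} (hH : H ≤ orth Q) {C : ℕ}
    (hC : C.factorial < Nat.card F) (h : Nat.card (orth Q) ≤ C * Nat.card H) : ⁅orth Q, orth Q⁆ ≤ H := by
  obtain ⟨N, hNH, hNn, hc⟩ := exists_core hH h
  have hE := eichIn_of_small hnd h2 (hNH.trans hH) hNn hC hc
  have hR : orth Q = Rsub Q := by
    refine le_antisymm (orth_le_Rsub hnd h2) ?_
    unfold Rsub
    rw [Subgroup.closure_le]
    rintro t ⟨x, hx, rfl⟩
    exact rf_mem Q hx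
  refine (comm_le hNn hR ?_).trans hNH
  rintro s ⟨x, hx, rfl⟩ t ⟨y, hy, rfl⟩
  exact rf_mod hnd h2 hdim (hNH.trans hH) hNn hE hx hy

end gen

open Pool.Agent.H32.UD

section link

variable {F E : Type} [Field F] [Field E] [Algebra F E] [Finite F] [Finite E] (D : Dat F E)

theorem G_eq_Iso : D.G = Iso D.B := rfl

/-- the quadratic form of `D.B` -/
noncomputable def DQ : QuadraticForm F E := (2⁻¹ : F) • D.B.toQuadraticMap

theorem DQ_apply (x : E) : DQ D x = 2⁻¹ * D.B x x := by
  simp [DQ]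

theorem polar_DQ (hr : Even D.r) (x y : E) : polar (DQ D) x y = D.B x y := by
  have h2 := D.two_ne
  have h3 := D.B_symm x y
  rw [hr.neg_one_pow, one_mul] at h3
  unfold polar
  rw [DQ_apply, DQ_apply, DQ_apply]
  simp only [map_add, LinearMap.add_apply]
  rw [h3]
  field_simp
  ring

theorem G_eq_orth (hr : Even D.r) : D.G = orth (DQ D) := by
  ext g
  rw [D.mem_G, mem_orth]
  constructor
  · intro h x
    rw [DQ_apply, DQ_apply, h]
  · intro h x y
    rw [← polar_DQ D hr, ← polar_DQ D hr]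
    exact polar_of_isom (DQ D) (fun a b => map_add g a b) h x y

end link

instance {F E : Type} [Field F] [Field E] [Algebra F E] [Finite E] : Finite (E ≃ₗ[F] E) :=
  Finite.of_injective (fun g : E ≃ₗ[F] E => (g : E → E)) fun _ _ h => LinearEquiv.ext fun x => congrFun h x

/-- Subgroups of bounded index. -/
theorem bounded_index (_r C : ℕ) : ∃ q0 : ℕ, ∀ (F E : Type) [Field F] [Field E] [Algebra F E] [Finite F]
    [Finite E] (D : Dat F E), D.r = _r → q0 ≤ Nat.card F → ∀ H : Subgroup (E ≃ₗ[F] E), H ≤ D.G →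
      Nat.card D.G ≤ C * Nat.card H → ⁅D.G, D.G⁆ ≤ H ∧ (Odd D.r → H = D.G) := by
  refine ⟨C.factorial + 1, ?_⟩
  intro F E _ _ _ _ _ D _ hq H hH h
  have hfd : FiniteDimensional F E := inferInstance
  have hC : C.factorial < Nat.card F := by omega
  have h2 := D.two_ne
  have hodd : Odd D.r → H = D.G := by
    intro hr
    have hB : ∀ x, D.B x x = 0 := by
      intro x
      have h3 := D.B_symm x x
      rw [hr.neg_one_pow] at h3
      have h4 : 2 * D.B x x = 0 := by linear_combination h3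
      exact (mul_eq_zero.1 h4).resolve_left h2
    exact alt_index hB (fun x hx => D.B_nondeg hx) h2 hH hC h
  refine ⟨?_, hodd⟩
  rcases Nat.even_or_odd D.r with hr | hr
  · have hdim : 6 ≤ finrank F E := by
      rw [D.fin]
      have := D.four_le
      omega
    rw [G_eq_orth D hr] at hH h ⊢
    exact orth_index (fun x hx => D.B_nondeg fun y => by rw [← polar_DQ D hr]; exact hx y) h2 hdim hH hC h
  · rw [hodd hr]
    exact Subgroup.commutator_le.2 fun a ha b hb =>
      D.G.mul_mem (D.G.mul_mem (D.G.mul_mem ha hb) (D.G.inv_mem ha)) (D.G.inv_mem hb)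

end Pool.Agent.H24.UD
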