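import Pool.Agent.H24.UD.Dual

/-!
# Block E, module MvA: one Eichler element moves `x` to `x'`

* `eich_move`: `v = x' - x`, `eichLin Q u v x = x + polar(u,x) v - polar(v,x) u - Q v polar(u,x) u = x' - (polar(v,x) + Q v) u` and
  `Q x' = Q (x + v) = Q x + Q v + polar(x,v)`, so the bracket is `0`.
* `exists_u`: let `d = x - x' ≠ 0`, `z` with `polar Q d z = 1` (`hnd`, scale). The subspace `{y | polar(x,y) = polar(x',y) = polar(z,y) = 0}` has
  dimension `≥ 6 - 3 = 3`, so it contains a singular `s ≠ 0` (`exists_singular`; the subspace is an intersection of three kernels). `s ∉ span {d}`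
  (`s = c d`, `0 = polar(z,s) = c`). `exists_dual` (`a = d`, `b = s`) gives `w₁` with `polar(d,w₁) = 0`, `polar(s,w₁) = 1`; `exists_dual` (`a = d`, `b = x`)
  gives `w₂` with `polar(d,w₂) = 0`, `polar(x,w₂) = 1`. One of `w₁, w₂, w₁ + w₂` is a `w` with `polar(s,w) ≠ 0`, `polar(x,w) ≠ 0`, `polar(d,w) = 0`.
  `u₀ = w - (Q w / polar(w,s)) s` is singular (`Q s = 0`), `polar(x,u₀) = polar(x,w) = polar(x',w) = polar(x',u₀)` (`polar(x,s) = polar(x',s) = 0`).
  `u = (polar(x,w))⁻¹ u₀`.
-/

set_option autoImplicit false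

namespace Pool.Agent.H24.UD

open Module QuadraticMap Pool.Agent.H49.UDN

variable {F V : Type*} [Field F] [AddCommGroup V] [Module F V] {Q : QuadraticForm F V}

theorem eich_move {N : Subgroup (V ≃ₗ[F] V)} (hE : EichIn Q N) {u x x' : V} (hu : Q u = 0)
    (h : polar Q u x = 1) (h' : polar Q u x' = 1) (hQ : Q x = Q x') : ∃ g ∈ N, g x = x' := by
  have huv : polar Q u (x' - x) = 0 := by
    rw [polar_sub_right, h, h', sub_self]
  refine ⟨(eich Q u (x' - x) hu huv).1, hE u (x' - x) hu huv, ?_⟩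
  have h1 : (eich Q u (x' - x) hu huv).1 x = eichLin Q u (x' - x) x := rfl
  rw [h1, eichLin_apply, h, one_smul, mul_one]
  have h2 : Q (x' - x) + polar Q (x' - x) x = 0 := by
    have h3 := Qadd Q (x' - x) x
    rw [sub_add_cancel, ← hQ] at h3
    linear_combination -h3
  have h4 : x + (x' - x) - polar Q (x' - x) x • u - Q (x' - x) • u =
      x' - (Q (x' - x) + polar Q (x' - x) x) • u := by module
  rw [h4, h2, zero_smul, sub_zero]

theorem exists_u [Finite F] [FiniteDimensional F V] (hnd : ∀ x, (∀ y, polar Q x y = 0) → x = 0)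
    (hdim : 6 ≤ finrank F V) {x x' : V} (hne : x ≠ x') (hx : x ∉ Submodule.span F {x - x'}) :
    ∃ u, Q u = 0 ∧ polar Q u x = 1 ∧ polar Q u x' = 1 := by
  set d : V := x - x' with hd
  have hd0 : d ≠ 0 := sub_ne_zero.2 hne
  obtain ⟨z, hz⟩ : ∃ z, polar Q d z ≠ 0 := by
    by_contra hcon
    push Not at hcon
    exact hd0 (hnd d hcon)
  set φ : V →ₗ[F] (Fin 3 → F) := LinearMap.pi fun i => polarBilin Q (![x, x', z] i) with hφ
  have hker : 3 ≤ finrank F (LinearMap.ker φ) := by
    have h2 := LinearMap.finrank_range_add_finrank_ker φ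
    have h3 : finrank F (LinearMap.range φ) ≤ 3 := by
      have h4 := Submodule.finrank_le (LinearMap.range φ)
      rwa [finrank_fin_fun] at h4
    omega
  obtain ⟨s, hs, hs0, hQs⟩ := exists_singular Q (LinearMap.ker φ) hker
  have hxs : polar Q x s = 0 := congrFun hs 0
  have hx's : polar Q x' s = 0 := congrFun hs 1
  have hzs : polar Q z s = 0 := congrFun hs 2
  have hsd : s ∉ Submodule.span F {d} := by
    intro h
    obtain ⟨c, hc⟩ := Submodule.mem_span_singleton.1 h
    rw [← hc, polar_smul_right, smul_eq_mul, polar_comm] at hzs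
    rcases mul_eq_zero.1 hzs with h1 | h1
    · exact hs0 (by rw [← hc, h1, zero_smul])
    · exact hz h1
  obtain ⟨w₁, hdw₁, hsw₁⟩ := exists_dual (Q := Q) hnd hsd
  obtain ⟨w₂, hdw₂, hxw₂⟩ := exists_dual (Q := Q) hnd hx
  obtain ⟨w, hdw, hsw, hxw⟩ : ∃ w, polar Q d w = 0 ∧ polar Q s w ≠ 0 ∧ polar Q x w ≠ 0 := by
    by_cases h1 : polar Q x w₁ = 0
    · by_cases h2 : polar Q s w₂ = 0
      · refine ⟨w₁ + w₂, ?_, ?_, ?_⟩
        · rw [polar_add_right, hdw₁, hdw₂, add_zero]
        · rw [polar_add_right, hsw₁, h2, add_zero]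
          exact one_ne_zero
        · rw [polar_add_right, h1, hxw₂, zero_add]
          exact one_ne_zero
      · exact ⟨w₂, hdw₂, h2, by rw [hxw₂]; exact one_ne_zero⟩
    · exact ⟨w₁, hdw₁, by rw [hsw₁]; exact one_ne_zero, h1⟩
  have hws : polar Q w s = polar Q s w := polar_comm _ _ _
  have hx'w : polar Q x' w = polar Q x w := by
    have h1 : polar Q d w = polar Q x w - polar Q x' w := by
      rw [hd, polar_sub_left]
    rw [h1] at hdw
    exact (sub_eq_zero.1 hdw).symm
  set c : F := -(Q w / polar Q s w) with hc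
  have hQ0 : Q (w + c • s) = 0 := by
    rw [Qadd, Qsmul, hQs, polar_smul_right, hws, smul_eq_mul, hc]
    field_simp
    ring
  refine ⟨(polar Q x w)⁻¹ • (w + c • s), ?_, ?_, ?_⟩
  · rw [Qsmul, hQ0, mul_zero]
  · rw [polar_smul_left, polar_comm Q (w + c • s), polar_add_right, polar_smul_right, hxs, smul_zero, add_zero,
      smul_eq_mul, inv_mul_cancel₀ hxw]
  · rw [polar_smul_left, polar_comm Q (w + c • s), polar_add_right, polar_smul_right, hx's, smul_zero, add_zero,
      hx'w, smul_eq_mul, inv_mul_cancel₀ hxw]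

end Pool.Agent.H24.UD
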