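import Pool.Agent.H24.UD.MvA

/-!
# Block E, module MvB: `N` is transitive on the vectors of a given norm

If `x = x'`: `g = 1`. If `x ∉ span {x - x'}`: `exists_u`, `eich_move`. Otherwise `x = c (x - x')`, `c ≠ 0` (`x ≠ 0`), `x' = l x` with
`l = 1 - c⁻¹ ≠ 1`, `Q x' = l² Q x = Q x`, so `l = -1`: `x' = -x`. The kernel of `polar Q x` has dimension `≥ 5`, so it contains a singular
`s ≠ 0` (`exists_singular`). No multiple of `s` is `x`, no multiple of `x` is `s` (norms). `y = x + s`, `Q y = Q x`. First move `x` to `y`: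
`x - y = -s`, `x ∉ span {-s}`. Then `y` to `-x`: `y + x = 2 x + s`; if `y = c (2x + s)` then `(1 - 2c) x = (c - 1) s`, so `1 - 2c = 0`
and `(c-1) s = 0`, `c = 1`, `-1 = 0`, a contradiction; `y ≠ -x` because `Q (2 x) = 4 Q x ≠ 0 = Q (-s)`.
-/

set_option autoImplicit false

namespace Pool.Agent.H24.UD

open Module QuadraticMap Pool.Agent.H49.UDN

variable {F V : Type*} [Field F] [AddCommGroup V] [Module F V] {Q : QuadraticForm F V}

private theorem mvb_ker [FiniteDimensional F V] (Q : QuadraticForm F V) (x : V)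
    (hdim : 6 ≤ finrank F V) : 3 ≤ finrank F (LinearMap.ker (polarBilin Q x)) := by
  have h1 := LinearMap.finrank_range_add_finrank_ker (polarBilin Q x)
  have h2 : finrank F (LinearMap.range (polarBilin Q x)) ≤ finrank F F :=
    Submodule.finrank_le _
  rw [finrank_self] at h2
  omega

private theorem mvb_step [Finite F] [FiniteDimensional F V]
    (hnd : ∀ x, (∀ y, polar Q x y = 0) → x = 0) (hdim : 6 ≤ finrank F V)
    {N : Subgroup (V ≃ₗ[F] V)} (hE : EichIn Q N) {x x' : V} (hQ : Q x = Q x') (hne : x ≠ x')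
    (h : x ∉ Submodule.span F {x - x'}) : ∃ g ∈ N, g x = x' := by
  obtain ⟨u, hu, h1, h2⟩ := exists_u hnd hdim hne h
  exact eich_move hE hu h1 h2 hQ

private theorem mvb_ne_smul {x s : V} (hs : Q s = 0) (hx : Q x ≠ 0) (c : F) : x ≠ c • s := by
  intro h
  apply hx
  rw [h, Qsmul, hs, mul_zero]

private theorem mvb_neg [Finite F] [FiniteDimensional F V]
    (hnd : ∀ x, (∀ y, polar Q x y = 0) → x = 0) (h2 : (2 : F) ≠ 0) (hdim : 6 ≤ finrank F V)
    {N : Subgroup (V ≃ₗ[F] V)} (hE : EichIn Q N) {x : V} (hx : Q x ≠ 0) : ∃ g ∈ N, g x = -x := by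
  obtain ⟨s, hs, hs0, hQs⟩ := exists_singular Q _ (mvb_ker Q x hdim)
  have hp : polar Q x s = 0 := by
    rw [LinearMap.mem_ker] at hs
    exact hs
  have hQy : Q (x + s) = Q x := by
    rw [Qadd, hQs, hp, add_zero, add_zero]
  have hQn : Q (-x) = Q x := QuadraticMap.map_neg Q x
  obtain ⟨g₁, hg₁, e₁⟩ := mvb_step hnd hdim hE (x := x) (x' := x + s) hQy.symm
    (by
      intro h
      apply hs0
      exact left_eq_add.1 h)
    (by
      intro h
      obtain ⟨c, hc⟩ := Submodule.mem_span_singleton.1 h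
      refine mvb_ne_smul hQs hx (-c) ?_
      calc x = c • (x - (x + s)) := hc.symm
        _ = (-c) • s := by module)
  obtain ⟨g₂, hg₂, e₂⟩ := mvb_step hnd hdim hE (x := x + s) (x' := -x) (by rw [hQy, hQn])
    (by
      intro h
      have h3 : s = (-2 : F) • x := by
        have h4 : s = -x - x := by
          rw [← h]
          abel
        rw [h4]
        module
      have h5 : Q s = 4 * Q x := by
        rw [h3, Qsmul]
        ring
      rw [hQs] at h5
      have h6 : (4 : F) ≠ 0 := by
        have : (4 : F) = 2 * 2 := by norm_num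
        rw [this]
        exact mul_ne_zero h2 h2
      exact mul_ne_zero h6 hx h5.symm)
    (by
      intro h
      obtain ⟨c, hc⟩ := Submodule.mem_span_singleton.1 h
      have h3 : (2 * c - 1) • x = (1 - c) • s := by
        have h4 : c • (x + s - -x) - (x + s) = 0 := by rw [hc, sub_self]
        have h5 : (2 * c - 1) • x - (1 - c) • s = c • (x + s - -x) - (x + s) := by module
        rw [← sub_eq_zero, h5, h4]
      by_cases h4 : 2 * c - 1 = 0
      · rw [h4, zero_smul] at h3
        rcases smul_eq_zero.1 h3.symm with h5 | h5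
        · have h6 : c = 1 := by linear_combination -h5
          rw [h6] at h4
          apply one_ne_zero (α := F)
          linear_combination h4
        · exact hs0 h5
      · apply mvb_ne_smul hQs hx ((2 * c - 1)⁻¹ * (1 - c))
        rw [mul_smul, ← h3, inv_smul_smul₀ h4])
  refine ⟨g₂ * g₁, N.mul_mem hg₂ hg₁, ?_⟩
  rw [LinearEquiv.mul_apply, e₁, e₂]

theorem eich_trans [Finite F] [FiniteDimensional F V] (hnd : ∀ x, (∀ y, polar Q x y = 0) → x = 0)
    (h2 : (2 : F) ≠ 0) (hdim : 6 ≤ finrank F V) {N : Subgroup (V ≃ₗ[F] V)} (hE : EichIn Q N) {x x' : V}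
    (hQ : Q x = Q x') (hx : Q x ≠ 0) : ∃ g ∈ N, g x = x' := by
  by_cases hne : x = x'
  · exact ⟨1, N.one_mem, hne⟩
  by_cases hsp : x ∈ Submodule.span F {x - x'}
  · obtain ⟨c, hc⟩ := Submodule.mem_span_singleton.1 hsp
    have hc0 : c ≠ 0 := by
      rintro rfl
      rw [zero_smul] at hc
      rw [← hc, QuadraticMap.map_zero] at hx
      exact hx rfl
    have h1 : x' = (1 - c⁻¹) • x := by
      have h3 : x - x' = c⁻¹ • x := by
        nth_rewrite 2 [← hc]
        rw [inv_smul_smul₀ hc0]
      rw [sub_smul, one_smul, ← h3]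
      abel
    have h3 : (1 - c⁻¹) * (1 - c⁻¹) = 1 := by
      have h4 := hQ
      rw [h1, Qsmul] at h4
      have h5 : ((1 - c⁻¹) * (1 - c⁻¹)) * Q x = 1 * Q x := by rw [← h4, one_mul]
      exact mul_right_cancel₀ hx h5
    have h4 : 1 - c⁻¹ = -1 := by
      rcases mul_self_eq_one_iff.1 h3 with h5 | h5
      · exfalso
        apply inv_ne_zero hc0
        linear_combination -h5
      · exact h5
    rw [h4, neg_one_smul] at h1
    rw [h1]
    exact mvb_neg hnd h2 hdim hE hx
  · exact mvb_step hnd hdim hE hQ hne hsp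

end Pool.Agent.H24.UD
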