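import Pool.Agent.H24.UD.Defs

/-!
# Block E, module Small: subgroups of small index and root groups

* `card_le_comap`: the index of `N.comap f` is `N.relIndex f.range` (`Subgroup.index_comap`), at most
  `N.relIndex G` (`Subgroup.relIndex_le_of_le_right`), which is `card G / card N ≤ K` (Lagrange). Or directly: the map
  `U ⧸ comap → G ⧸ N` is injective.
* `add_top`: `c = ((c + 1) / 2) ^ 2 - ((c - 1) / 2) ^ 2`, so `A` is stable under all scalars. If `A` contains some `a ≠ 0`
  then `b = (b / a) * a ∈ A` for all `b`; otherwise `card A = 1`, `card F ≤ K`, a contradiction.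
* `hom_mem`: `A = {a | f a ∈ N}` is an additive subgroup, `Nat.card A = Nat.card (N.comap f)`; `add_top`
  (`l = 0`: `0 ∈ A`).
-/

set_option autoImplicit false

namespace Pool.Agent.H24.UD

open Module QuadraticMap Pool.Agent.H49.UDN

theorem card_le_comap {A U : Type*} [Group A] [Finite A] [Group U] [Finite U] {G N : Subgroup A}
    (f : U →* A) (hf : ∀ u, f u ∈ G) (hN : N ≤ G) {K : ℕ} (h : Nat.card G ≤ K * Nat.card N) :
    Nat.card U ≤ K * Nat.card (N.comap f) := by
  have h1 : (N.comap f).index = N.relIndex f.range := Subgroup.index_comap N f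
  have h2 : f.range ≤ G := by
    rintro x ⟨u, rfl⟩
    exact hf u
  have h3 : N.relIndex f.range ≤ N.relIndex G := by
    apply Subgroup.relIndex_le_of_le_right h2
    unfold Subgroup.relIndex
    exact Subgroup.index_ne_zero_of_finite
  have h4 : N.relIndex G ≤ K := by
    have h5 : Nat.card (N.subgroupOf G) = Nat.card N := Nat.card_congr (Subgroup.subgroupOfEquivOfLe hN).toEquiv
    have h6 := (N.subgroupOf G).index_mul_card
    rw [h5] at h6
    rw [← h6] at h
    exact Nat.le_of_mul_le_mul_right h Nat.card_pos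
  have h7 := (N.comap f).index_mul_card
  rw [← h7, h1]
  exact Nat.mul_le_mul_right _ (h3.trans h4)

theorem add_top {F : Type*} [Field F] [Finite F] (h2 : (2 : F) ≠ 0) {K : ℕ} (hK : K < Nat.card F)
    (A : AddSubgroup F) (hA : ∀ l a, a ∈ A → l ^ 2 * a ∈ A) (hc : Nat.card F ≤ K * Nat.card A) (a : F) :
    a ∈ A := by
  have hs : ∀ c a, a ∈ A → c * a ∈ A := by
    intro c a ha
    have h3 : c * a = ((c + 1) / 2) ^ 2 * a - ((c - 1) / 2) ^ 2 * a := by
      field_simp
      ring
    rw [h3]
    exact A.sub_mem (hA _ _ ha) (hA _ _ ha)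
  by_cases hbot : ∃ b ∈ A, b ≠ 0
  · obtain ⟨b, hb, hb0⟩ := hbot
    have h3 := hs (a / b) b hb
    rwa [div_mul_cancel₀ a hb0] at h3
  · push Not at hbot
    have h3 : Nat.card A ≤ 1 := by
      have : Subsingleton A := ⟨fun x y => Subtype.ext (by rw [hbot x x.2, hbot y y.2])⟩
      exact Finite.card_le_one_iff_subsingleton.2 this
    have h4 : K * Nat.card A ≤ K * 1 := Nat.mul_le_mul_left _ h3
    omega

theorem hom_mem {F A : Type*} [Field F] [Finite F] [Group A] [Finite A] (h2 : (2 : F) ≠ 0)
    {G N : Subgroup A} (hN : N ≤ G) {K : ℕ} (hK : K < Nat.card F) (h : Nat.card G ≤ K * Nat.card N)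
    (f : Multiplicative F →* A) (hf : ∀ a, f a ∈ G)
    (hs : ∀ l a : F, l ≠ 0 → f (Multiplicative.ofAdd a) ∈ N → f (Multiplicative.ofAdd (l ^ 2 * a)) ∈ N)
    (a : F) : f (Multiplicative.ofAdd a) ∈ N := by
  have h1 : Nat.card (Multiplicative F) ≤ K * Nat.card (N.comap f) := card_le_comap f hf hN h
  let S : AddSubgroup F :=
    { carrier := {a | f (Multiplicative.ofAdd a) ∈ N}
      add_mem' := by
        intro x y hx hy
        show f (Multiplicative.ofAdd (x + y)) ∈ N
        rw [ofAdd_add, map_mul]
        exact N.mul_mem hx hy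
      zero_mem' := by
        show f (Multiplicative.ofAdd 0) ∈ N
        rw [ofAdd_zero, map_one]
        exact N.one_mem
      neg_mem' := by
        intro x hx
        show f (Multiplicative.ofAdd (-x)) ∈ N
        rw [ofAdd_neg, map_inv]
        exact N.inv_mem hx }
  have hS : Nat.card S = Nat.card (N.comap f) := Nat.card_congr
    { toFun := fun x => ⟨Multiplicative.ofAdd x.1, x.2⟩
      invFun := fun x => ⟨x.1.toAdd, x.2⟩
      left_inv := fun x => rfl
      right_inv := fun x => rfl }
  have h3 : Nat.card F ≤ K * Nat.card S := by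
    rw [hS]
    exact h1
  refine add_top h2 hK S ?_ h3 a
  intro l b hb
  by_cases hl : l = 0
  · subst hl
    have : (0 : F) ^ 2 * b = 0 := by ring
    rw [this]
    exact S.zero_mem
  · exact hs l b hl hb

end Pool.Agent.H24.UD
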