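import Pool.Agent.H24.UD.TvTr

/-!
# Block E, module TvGA: two steps for the generation of the symplectic group by transvections

`fx g` is the subspace of the fixed vectors of `g`.

* `step_a`: `t = tv (x - g x) c`, `c = (B (g x) x)⁻¹`: `t (g x) = g x + c B(g x, x - g x) (x - g x) = x`
  (`B (g x) (g x) = 0`, `B (g x) x = - B x (g x) ≠ 0`). For `w ∈ fx g`: `B w (x - g x) = B w x - B (g w) (g x) = 0`, so
  `t w = w`. So `fx g ≤ fx (t * g)`, and `x` lies in the second but not in the first (`g x = x` would give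
  `B x (g x) = B x x = 0`).
* `step_b`: polarise: `B x (g y) + B y (g x) = 0`, so `B x (g y) = B (g x) y = B (g (g x)) (g y)` for all `y`, so `g (g x) = x`
  (`g` is surjective, `hnd`). As `g ≠ 1` there is `y` with `g y ≠ y`; `e = y - g y ≠ 0`, `g e = - e`. Take `z` with
  `B e z = 1` (`hnd`, scale) and `f = (1/2) (z - g z)`: `g f = - f` and `B e f = (1/2)(B e z - B e (g z)) = (1/2)(1 + B (g e) (g z)) = (1/2)(1 + B e z) = 1`.
  `t = tv e 1`: for `w ∈ fx g`: `B w e = B (g w) (g e) = - B w e`, so `B w e = 0`, `t w = w`. And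
  `t (g f) = t (- f) = - f - B(f, e) e = - f + e` (`B f e = - B e f = -1`), `B f (t (g f)) = B f e = -1 ≠ 0`.
-/

set_option autoImplicit false

namespace Pool.Agent.H24.UD

open Module QuadraticMap Pool.Agent.H49.UDN

variable {F V : Type*} [Field F] [AddCommGroup V] [Module F V] {B : LinearMap.BilinForm F V}

/-- the fixed vectors -/
def fx (g : V ≃ₗ[F] V) : Submodule F V where
  carrier := {x | g x = x}
  add_mem' := by
    intro a b ha hb
    show g (a + b) = a + b
    rw [map_add, ha, hb]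
  zero_mem' := map_zero g
  smul_mem' := by
    intro c a ha
    show g (c • a) = c • a
    rw [map_smul, ha]

lemma mem_fx {g : V ≃ₗ[F] V} {x : V} : x ∈ fx g ↔ g x = x := Iff.rfl

theorem step_a (hB : ∀ x, B x x = 0) {g : V ≃ₗ[F] V} (hg : g ∈ Iso B) {x : V} (hx : B x (g x) ≠ 0) :
    ∃ t ∈ Tsub hB, fx g < fx (t * g) := by
  have hc : B (g x) x ≠ 0 := by
    rw [alt_swap hB x (g x)]
    exact neg_ne_zero.2 hx
  refine ⟨tv hB (x - g x) (B (g x) x)⁻¹, tv_mem_Tsub hB _ _, ?_⟩
  rw [SetLike.lt_iff_le_and_exists]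
  refine ⟨?_, x, ?_, ?_⟩
  · intro w hw
    rw [mem_fx] at hw ⊢
    rw [LinearEquiv.mul_apply, hw, tv_apply]
    have h1 : B w (x - g x) = 0 := by
      rw [map_sub]
      have h2 := hg w x
      rw [hw] at h2
      rw [h2, sub_self]
    rw [h1, mul_zero, zero_smul, add_zero]
  · rw [mem_fx, LinearEquiv.mul_apply, tv_apply, map_sub, hB, sub_zero, inv_mul_cancel₀ hc, one_smul,
      add_sub_cancel]
  · intro h
    rw [mem_fx] at h
    rw [h, hB] at hx
    exact hx rfl

theorem step_b (hB : ∀ x, B x x = 0) (hnd : ∀ x, (∀ y, B x y = 0) → x = 0) (h2 : (2 : F) ≠ 0)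
    {g : V ≃ₗ[F] V} (hg : g ∈ Iso B) (h1 : g ≠ 1) (h : ∀ x, B x (g x) = 0) :
    ∃ t ∈ Tsub hB, fx g ≤ fx (t * g) ∧ ∃ x, B x ((t * g) x) ≠ 0 := by
  have hpol : ∀ x y, B x (g y) = B (g x) y := by
    intro x y
    have h3 := h (x + y)
    simp only [map_add, LinearMap.add_apply, h, zero_add, add_zero] at h3
    have h4 := alt_swap hB y (g x)
    linear_combination h3 - h4
  have hgg : ∀ x, g (g x) = x := by
    intro x
    have h3 : g (g x) - x = 0 := by
      apply hnd
      intro z
      have h4 := hpol x (g.symm z)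
      have h5 := hg (g x) (g.symm z)
      rw [g.apply_symm_apply] at h4 h5
      rw [map_sub, LinearMap.sub_apply, h5, h4, sub_self]
    exact sub_eq_zero.1 h3
  obtain ⟨y, hy⟩ : ∃ y, g y ≠ y := by
    by_contra hcon
    push Not at hcon
    exact h1 (LinearEquiv.ext fun y => hcon y)
  have he0 : y - g y ≠ 0 := fun hh => hy (sub_eq_zero.1 hh).symm
  have hge : g (y - g y) = -(y - g y) := by
    rw [map_sub, hgg]
    abel
  set e := y - g y with he
  obtain ⟨z0, hz0⟩ : ∃ z, B e z ≠ 0 := by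
    by_contra hcon
    push Not at hcon
    exact he0 (hnd e hcon)
  obtain ⟨z, hz⟩ : ∃ z, B e z = 1 := ⟨(B e z0)⁻¹ • z0, by rw [map_smul, smul_eq_mul, inv_mul_cancel₀ hz0]⟩
  have hegz : B e (g z) = -1 := by
    have h3 := hg e z
    rw [hge, map_neg, LinearMap.neg_apply, hz] at h3
    linear_combination -h3
  have hgf : g ((2 : F)⁻¹ • (z - g z)) = -((2 : F)⁻¹ • (z - g z)) := by
    rw [map_smul, map_sub, hgg, ← smul_neg]
    congr 1
    abel
  have hef : B e ((2 : F)⁻¹ • (z - g z)) = 1 := by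
    rw [map_smul, map_sub, hz, hegz, smul_eq_mul]
    field_simp
    norm_num
  set f := (2 : F)⁻¹ • (z - g z) with hf
  refine ⟨tv hB e 1, tv_mem_Tsub hB _ _, ?_, f, ?_⟩
  · intro w hw
    rw [mem_fx] at hw ⊢
    rw [LinearEquiv.mul_apply, hw, tv_apply]
    have h3 : B w e = 0 := by
      have h4 := hg w e
      rw [hw, hge, map_neg] at h4
      have h5 : 2 * B w e = 0 := by linear_combination -h4
      exact (mul_eq_zero.1 h5).resolve_left h2
    rw [h3, mul_zero, zero_smul, add_zero]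
  · have h3 : B f e = -1 := by rw [alt_swap hB e f, hef]
    have h4 : B f f = 0 := hB f
    have h5 : (tv hB e 1 * g) f = -f + e := by
      rw [LinearEquiv.mul_apply, hgf, tv_apply, map_neg, LinearMap.neg_apply, h3, neg_neg, one_mul, one_smul]
    rw [h5, map_add, map_neg, h4, h3, neg_zero, zero_add]
    exact neg_ne_zero.2 one_ne_zero

end Pool.Agent.H24.UD
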